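import Pool.Agent.T2H59.FM.FM4

open MeasureTheory Set Filter Topology

namespace Pool.Agent.Results.MP_793d1e_an.FirstMoment

/-- The indicator of `Ω` tiles at level `w` with translation set `Λ`: `Λ` is countable and almost
every `x` lies in exactly `w` of the translates `Ω + l`, `l ∈ Λ`. -/
def TilesAtLevel (Ω : Set ℝ) (w : ℕ) (Λ : Set ℝ) : Prop :=
  Λ.Countable ∧ ∀ᵐ x : ℝ, {l : ℝ | l ∈ Λ ∧ x - l ∈ Ω}.encard = w

/-- `Λ` is a finite union of translates of one arithmetic progression `α ℤ`, `α > 0`. -/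
def PeriodicStructure (Λ : Set ℝ) : Prop :=
  ∃ α : ℝ, 0 < α ∧ ∃ F : Finset ℝ, F.Nonempty ∧ Λ = {t | ∃ β ∈ F, ∃ k : ℤ, t = α * k + β}

/-- If a measurable set `Ω` of the line has positive finite measure and finite first moment,
`∫_Ω |x| dx < ∞`, then every translation set with which `1_Ω` tiles at level one has a periodic
structure, and only finitely many such translation sets contain `0`. -/
theorem result (Ω : Set ℝ) (hΩ : MeasurableSet Ω) (h0 : 0 < volume Ω) (h1 : volume Ω < ⊤)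
    (hm : ∫⁻ x in Ω, ENNReal.ofReal |x| < ⊤) :
    (∀ Λ : Set ℝ, TilesAtLevel Ω 1 Λ → PeriodicStructure Λ) ∧
      {Λ : Set ℝ | TilesAtLevel Ω 1 Λ ∧ 0 ∈ Λ}.Finite := by
  have hint : IntegrableOn (fun x : ℝ => |x|) Ω := by
    refine ⟨(by fun_prop : Continuous fun x : ℝ => |x|).aestronglyMeasurable, ?_⟩
    rw [hasFiniteIntegral_iff_ofReal (Eventually.of_forall fun x => abs_nonneg x)]
    exact hm
  have key := T2H59.FM.main hΩ h0 h1 hint
  have e : ∀ Λ : Set ℝ, TilesAtLevel Ω 1 Λ ↔ (Λ.Countable ∧ Helper575.NP.T1 Ω Λ) := by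
    intro Λ
    simp only [TilesAtLevel, Helper575.NP.T1, Nat.cast_one]
  refine ⟨fun Λ hT => ?_, ?_⟩
  · rw [e] at hT
    exact key.1 Λ hT.1 hT.2
  · simp only [e]
    exact key.2

end Pool.Agent.Results.MP_793d1e_an.FirstMoment
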